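import Mathlib
import Pool.Agent.H84.CoSobDefs
import Pool.Agent.H84.CoSob

set_option autoImplicit false

namespace Pool.Agent.Results.MP_1ae613_gt.Counter

open Pool.Agent.H84.CoSobDefs

/-- A co-sober space with a continuous kernel operator whose image is not co-sober. -/
theorem result : ∃ (X : Type) (_ : TopologicalSpace X) (k : X → X),
    CoSober X ∧ Continuous k ∧ (∀ x, k x ∈ closure {x}) ∧ k ∘ k = k ∧
      ¬ CoSober (Set.range k) :=
  ⟨H84.CoSob.X, inferInstance, H84.CoSob.k, H84.CoSob.coSober_X, H84.CoSob.continuous_k,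
    fun x => H84.CoSob.specX.2 ⟨rfl, Nat.zero_le x.2⟩, rfl, H84.CoSob.not_coSober_range⟩

end Pool.Agent.Results.MP_1ae613_gt.Counter
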